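import Pool.Agent.H44.SO.Targets

/-!
# Several orbits of vertices: there are determining positions (row JNE of sot_modules)
-/

set_option autoImplicit false

namespace Pool.Agent.H49.SO.JNE

open Pool.Agent.H44.SO Pool.Agent.H57.SO Pool.Agent.H68.BP Pool.Agent.H58.SF
open Pool.Agent.H53.GC Pool.Agent.H53.NR Function
open Pool.Agent.H57.EQ (Cx Tour)
open Pool.Agent.H44.EQ (PolMap TInv BinPol ZA JSet sel kap)

theorem pf_JNE (hC : T_CFG) : T_JNE := by
  classical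
  intro σ V S X _ P 𝔸 M c hS h hcore s κ J hJ
  rw [Set.nonempty_iff_ne_empty]
  rintro rfl
  obtain ⟨v0, hv0⟩ := hS.col.surS s
  obtain ⟨f, hf1, hf3, hf2⟩ := hC σ V S X P 𝔸 M c hS (Set.range κ × Bool) ℕ
    (fun w => 2 * (w.1 : ℕ) + (if w.2 then 1 else 0)) (fun _ => s) (fun _ _ => P.fr s s) (by
      rintro ⟨⟨a, ha⟩, b⟩ ⟨⟨a', ha'⟩, b'⟩ h1
      simp only at h1
      have h2 : a = a' ∧ b = b' := by
        cases b <;> cases b' <;> simp at h1 ⊢ <;> omega
      obtain ⟨rfl, rfl⟩ := h2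
      rfl) (fun _ _ _ => (P.rv_fr s s).symm)
    (fun K hK => ⟨fun _ => v0, fun _ _ => hv0,
      fun x hx y hy hne => absurd rfl (hK x hx y hy hne)⟩)
  have hlt : ∀ (l l' : Fin 6) (b b' : Bool), κ l < κ l' →
      f (⟨κ l, l, rfl⟩, b) < f (⟨κ l', l', rfl⟩, b') := by
    intro l l' b b' h1
    apply (hf1 _ _).2
    show 2 * κ l + (if b then 1 else 0) < 2 * κ l' + (if b' then 1 else 0)
    split_ifs <;> omega
  have hne : ∀ (l l' : Fin 6) (b b' : Bool), κ l < κ l' →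
      c (f (⟨κ l, l, rfl⟩, b)) (f (⟨κ l', l', rfl⟩, b')) = Sum.inr (P.fr s s) := by
    intro l l' b b' h1
    apply hf2
    intro h2
    have h3 : κ l = κ l' := congrArg (fun w : Set.range κ × Bool => (w.1 : ℕ)) h2
    omega
  have hfb : ∀ b : Bool, FBl P c s (fun l : Fin 6 => f (⟨κ l, l, rfl⟩, b)) := fun b =>
    ⟨fun l => hf3 _, fun l l' h1 => hf2 _ _ fun h2 => h1 (congrArg f h2)⟩
  have hZ : ZS P c s κ (fun l => f (⟨κ l, l, rfl⟩, false)) (fun l => f (⟨κ l, l, rfl⟩, true)) := by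
    refine ⟨fun l => ⟨hf3 _, hf3 _⟩, fun l l' h1 => ?_, fun l l' h1 => ?_, fun l l' h1 => ?_⟩
    · have h2 : (⟨κ l, l, rfl⟩ : Set.range κ) = ⟨κ l', l', rfl⟩ := Subtype.ext h1
      constructor
      · show f (⟨κ l, l, rfl⟩, false) = f (⟨κ l', l', rfl⟩, false)
        rw [h2]
      · show f (⟨κ l, l, rfl⟩, true) = f (⟨κ l', l', rfl⟩, true)
        rw [h2]
    · exact ⟨hlt l l' _ _ h1, hlt l l' _ _ h1, hlt l l' _ _ h1, hlt l l' _ _ h1⟩
    · exact ⟨hne l l' _ _ h1, hne l l' _ _ h1, hne l l' _ _ h1, hne l l' _ _ h1⟩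
  obtain ⟨s', hs'⟩ := (hJ _ _ hZ).2 fun l hl => absurd hl (Set.notMem_empty l)
  refine hcore.ncol s _ _ (hfb false) (hfb true) ?_ s' hs'
  intro l l'
  rcases lt_trichotomy (κ l) (κ l') with h1 | h1 | h1
  · exact (hlt l l' false true h1).ne
  · refine ((hf1 _ _).2 ?_).ne
    show 2 * κ l + (if false then 1 else 0) < 2 * κ l' + (if true then 1 else 0)
    rw [h1]
    simp
  · exact (hlt l' l true false h1).ne'

end Pool.Agent.H49.SO.JNE
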