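import Pool.Agent.H58.SO.Basic

/-!
# Several orbits of vertices: values of homomorphisms (row UMB)
-/

set_option autoImplicit false

namespace Pool.Agent.H49.SO

open Pool.Agent.H68.BP Pool.Agent.H58.SF Pool.Agent.H53.GC Pool.Agent.H53.NR
open Pool.Agent.H58.SO

theorem umb_key {σ : Sig} {V X Θ V' X' Θ' : Type} [LinearOrder V] [LinearOrder V'] {M : ℕ}
    (B : Bs V X Θ M) (B' : Bs V' X' Θ' M) (𝔸 : Str σ V) (𝔸' : Str σ V')
    (m : X × Ordering → X' × Ordering) (hm : UM B B' 𝔸 𝔸' m) (x y : V) :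
    ∃ u v : V', B'.ct u u = m (B.ct x x) ∧ B'.ct v v = m (B.ct y y) ∧
      B'.ct u v = m (B.ct x y) := by
  have hM : 0 < M := by have := B.four; omega
  have hM1 : 1 < M := by have := B.four; omega
  let t : Fin M → V := fun a => if (a : ℕ) = 0 then x else y
  obtain ⟨z, -, hz⟩ := hm none t trivial
  have h0 : t ⟨0, hM⟩ = x := rfl
  have h1 : t ⟨1, hM1⟩ = y := rfl
  refine ⟨z (⟨0, hM⟩ : Fin M), z (⟨1, hM1⟩ : Fin M), ?_, ?_, ?_⟩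
  · rw [← h0]
    exact hz (⟨0, hM⟩ : Fin M) (⟨0, hM⟩ : Fin M)
  · rw [← h1]
    exact hz (⟨1, hM1⟩ : Fin M) (⟨1, hM1⟩ : Fin M)
  · rw [← h0, ← h1]
    exact hz (⟨0, hM⟩ : Fin M) (⟨1, hM1⟩ : Fin M)

theorem umb_tm {V X Θ V' X' Θ' : Type} [LinearOrder V] [LinearOrder V'] {M : ℕ}
    (B : Bs V X Θ M) (B' : Bs V' X' Θ' M) (m : X × Ordering → X' × Ordering) {x : V} {u : V'}
    (h : B'.ct u u = m (B.ct x x)) : tm B B' m (B.vt x) = B'.vt u := by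
  rw [tm, ← B.ct_self, ← h, B'.ct_fst, B'.left]

theorem pf_UMB : T_UMB := by
  intro σ V X Θ V' X' Θ' _ _ M B B' 𝔸 𝔸' m hm
  refine ⟨fun x y => ?_, fun s => ?_⟩
  · obtain ⟨u, v, hu, hv, huv⟩ := umb_key B B' 𝔸 𝔸' m hm x y
    rw [← huv, umb_tm B B' m hu, umb_tm B B' m hv, B'.ct_fst, B'.left, B'.right]
    exact ⟨rfl, rfl⟩
  · obtain ⟨x, rfl⟩ := B.surjT s
    obtain ⟨u, v, hu, -, -⟩ := umb_key B B' 𝔸 𝔸' m hm x x
    rw [umb_tm B B' m hu, ← B.ct_self, ← hu, B'.ct_self]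

end Pool.Agent.H49.SO
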